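import Mathlib

/-!
Counting lemmas for the random graph argument.
-/

namespace Pool.Agent.V11238.NPS

open Finset

section avoid

variable {ι J : Type*} [Fintype ι] [DecidableEq ι] [DecidableEq J]

/-- The configurations avoiding all the events `∀ i ∈ S j, ω i = pat j i`, `j ∈ F`, for pairwise
disjoint sets `S j` with at most `K` elements, are a fraction at most `(1 - 2 ^ (-K)) ^ |F|` of all
configurations. -/
theorem count_avoid (S : J → Finset ι) (pat : J → ι → Bool) (K : ℕ) (F : Finset J)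
    (hK : ∀ j ∈ F, (S j).card ≤ K)
    (hd : ∀ j ∈ F, ∀ j' ∈ F, j ≠ j' → Disjoint (S j) (S j')) :
    ((univ.filter (fun ω : ι → Bool => ∀ j ∈ F, ¬ ∀ i ∈ S j, ω i = pat j i)).card : ℝ) ≤
      (1 - (1 / 2 : ℝ) ^ K) ^ F.card * 2 ^ (Fintype.card ι) := by
  induction F using Finset.induction_on with
  | empty => simp
  | insert j F hj ih =>
    have ih' := ih (fun j' h => hK j' (mem_insert_of_mem h))
      (fun j1 h1 j2 h2 => hd j1 (mem_insert_of_mem h1) j2 (mem_insert_of_mem h2))
    set X := univ.filter (fun ω : ι → Bool => ∀ j ∈ F, ¬ ∀ i ∈ S j, ω i = pat j i) with hX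
    have hsplit := Finset.card_filter_add_card_filter_not (s := X)
      (fun ω : ι → Bool => ∀ i ∈ S j, ω i = pat j i)
    have heq : univ.filter (fun ω : ι → Bool => ∀ j' ∈ insert j F, ¬ ∀ i ∈ S j', ω i = pat j' i) =
        X.filter (fun ω => ¬ ∀ i ∈ S j, ω i = pat j i) := by
      ext ω
      simp only [hX, mem_filter, mem_univ, true_and, mem_insert, forall_eq_or_imp]
      tauto
    rw [heq, card_insert_of_notMem hj]
    have hle : X.card ≤ 2 ^ (S j).card * (X.filter (fun ω => ∀ i ∈ S j, ω i = pat j i)).card := by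
      refine Finset.card_le_mul_card_image_of_maps_to
        (f := fun ω : ι → Bool => fun i => if i ∈ S j then pat j i else ω i) ?_ _ ?_
      · intro ω hω
        simp only [hX, mem_filter, mem_univ, true_and] at hω ⊢
        refine ⟨fun j' hj' hall => hω j' hj' fun i hi => ?_, fun i hi => by simp [hi]⟩
        have hne : j ≠ j' := fun h => hj (h ▸ hj')
        have hdis := hd j (mem_insert_self _ _) j' (mem_insert_of_mem hj') hne
        have hni : i ∉ S j := fun h => (Finset.disjoint_left.mp hdis h hi)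
        have := hall i hi
        simpa [hni] using this
      · intro ω' _
        rw [← Finset.card_powerset]
        refine Finset.card_le_card_of_injOn (fun ω => (S j).filter (fun i => ω i = true)) ?_ ?_
        · intro ω _
          exact Finset.mem_coe.mpr (Finset.mem_powerset.mpr (Finset.filter_subset _ _))
        · intro ω₁ h₁ ω₂ h₂ h12
          simp only [coe_filter, Set.mem_ofPred_eq] at h₁ h₂
          funext i
          by_cases hi : i ∈ S j
          · have : i ∈ (S j).filter (fun i => ω₁ i = true) ↔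
                i ∈ (S j).filter (fun i => ω₂ i = true) := by
              simp only at h12
              rw [h12]
            simp only [mem_filter, hi, true_and] at this
            exact Bool.eq_iff_iff.mpr this
          · have e1 := congrFun h₁.2 i
            have e2 := congrFun h₂.2 i
            simp only [hi, if_false] at e1 e2
            rw [e1, e2]
    have hle2 : (X.card : ℝ) ≤
        2 ^ K * ((X.filter (fun ω => ∀ i ∈ S j, ω i = pat j i)).card : ℝ) := by
      have h1 : (X.card : ℝ) ≤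
          2 ^ (S j).card * ((X.filter (fun ω => ∀ i ∈ S j, ω i = pat j i)).card : ℝ) := by
        exact_mod_cast hle
      refine h1.trans ?_
      gcongr
      · norm_num
      · exact hK j (mem_insert_self _ _)
    have hsplit' : ((X.filter (fun ω => ∀ i ∈ S j, ω i = pat j i)).card : ℝ) +
        ((X.filter (fun ω => ¬ ∀ i ∈ S j, ω i = pat j i)).card : ℝ) = X.card := by
      exact_mod_cast hsplit
    have hpos : (0 : ℝ) < 2 ^ K := by positivity
    have hhalf : (1 / 2 : ℝ) ^ K * 2 ^ K = 1 := by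
      rw [← mul_pow]; norm_num
    have hlt : (1 / 2 : ℝ) ^ K ≤ 1 := pow_le_one₀ (by norm_num) (by norm_num)
    have h3 : ((X.filter (fun ω => ¬ ∀ i ∈ S j, ω i = pat j i)).card : ℝ) ≤
        (1 - (1 / 2 : ℝ) ^ K) * X.card := by
      have h4 : (1 / 2 : ℝ) ^ K * X.card ≤
          ((X.filter (fun ω => ∀ i ∈ S j, ω i = pat j i)).card : ℝ) := by
        calc (1 / 2 : ℝ) ^ K * X.card
            ≤ (1 / 2 : ℝ) ^ K * (2 ^ K *
              ((X.filter (fun ω => ∀ i ∈ S j, ω i = pat j i)).card : ℝ)) := by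
              gcongr
          _ = _ := by rw [← mul_assoc, hhalf, one_mul]
      linarith
    calc ((X.filter (fun ω => ¬ ∀ i ∈ S j, ω i = pat j i)).card : ℝ)
        ≤ (1 - (1 / 2 : ℝ) ^ K) * X.card := h3
      _ ≤ (1 - (1 / 2 : ℝ) ^ K) *
          ((1 - (1 / 2 : ℝ) ^ K) ^ F.card * 2 ^ (Fintype.card ι)) := by
          gcongr
      _ = _ := by ring

end avoid

section identity

variable {Γ : Type*} [AddCommGroup Γ] [Fintype Γ] [DecidableEq Γ]

/-- The pairs of one class whose sum is in the other class. -/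
def T (A : Finset Γ) : Finset (Γ × Γ) :=
  univ.filter (fun x => (x.1 ∈ A ∧ x.2 ∈ A ∧ x.1 + x.2 ∉ A) ∨ (x.1 ∉ A ∧ x.2 ∉ A ∧ x.1 + x.2 ∈ A))

theorem card_T (A : Finset Γ) : (T A).card = A.card * Aᶜ.card := by
  classical
  set T1 := univ.filter (fun x : Γ × Γ => x.1 ∈ A ∧ x.2 ∈ A ∧ x.1 + x.2 ∉ A) with hT1
  set T2 := univ.filter (fun x : Γ × Γ => x.1 ∉ A ∧ x.2 ∉ A ∧ x.1 + x.2 ∈ A) with hT2
  set U1 := univ.filter (fun x : Γ × Γ => x.1 ∈ A ∧ x.2 ∉ A ∧ x.1 + x.2 ∉ A) with hU1
  set U2 := univ.filter (fun x : Γ × Γ => x.1 ∈ A ∧ x.2 ∉ A ∧ x.1 + x.2 ∈ A) with hU2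
  have hT : (T A).card = T1.card + T2.card := by
    rw [← Finset.card_union_of_disjoint]
    · congr 1
      ext x
      simp [T, hT1, hT2]
    · rw [Finset.disjoint_left]
      intro x h1 h2
      simp [hT1, hT2] at h1 h2
      exact h2.1 h1.1
  have hU : U1.card + U2.card = A.card * Aᶜ.card := by
    rw [← Finset.card_union_of_disjoint, ← Finset.card_product]
    · congr 1
      ext x
      simp [hU1, hU2]
      tauto
    · rw [Finset.disjoint_left]
      intro x h1 h2
      simp [hU1, hU2] at h1 h2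
      exact h1.2.2 h2.2.2
  have h1 : T1.card + U1.card = A.card * Aᶜ.card := by
    rw [← Finset.card_union_of_disjoint, ← Finset.card_product]
    · refine Finset.card_bij' (fun x _ => (x.1, x.1 + x.2)) (fun x _ => (x.1, x.2 - x.1))
        ?_ ?_ ?_ ?_
      · intro x hx
        simp [hT1, hU1] at hx ⊢
        tauto
      · intro x hx
        simp [hT1, hU1] at hx ⊢
        tauto
      · intro x _; simp
      · intro x _; simp
    · rw [Finset.disjoint_left]
      intro x h1 h2
      simp [hT1, hU1] at h1 h2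
      exact h2.2.1 h1.2.1
  have h2 : T2.card + U2.card = A.card * Aᶜ.card := by
    rw [← Finset.card_union_of_disjoint, ← Finset.card_product]
    · refine Finset.card_bij' (fun x _ => (x.1 + x.2, x.2)) (fun x _ => (x.1 - x.2, x.2))
        ?_ ?_ ?_ ?_
      · intro x hx
        simp [hT2, hU2] at hx ⊢
        tauto
      · intro x hx
        simp [hT2, hU2] at hx ⊢
        tauto
      · intro x _; simp
      · intro x _; simp
    · rw [Finset.disjoint_left]
      intro x h1 h2
      simp [hT2, hU2] at h1 h2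
      exact h1.1 h2.1
  omega

/-- The usable pairs. -/
def Qs (A W : Finset Γ) : Finset (Γ × Γ) :=
  univ.filter (fun x => x.1 ≠ x.2 ∧ ¬ (x.1 ∈ W ∧ x.2 ∈ W) ∧ x.1 ∈ A ∧ x.2 ∈ A ∧ x.1 + x.2 ∉ A)

theorem card_double_le [IsAddCyclic Γ] (c : Γ) :
    (univ.filter (fun p : Γ => p + p = c)).card ≤ 2 := by
  rcases (univ.filter (fun p : Γ => p + p = c)).eq_empty_or_nonempty with h | ⟨p₀, h₀⟩
  · simp [h]
  · have h2 := IsAddCyclic.card_nsmul_eq_zero_le (α := Γ) (n := 2) (by norm_num)
    refine le_trans ?_ h2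
    refine Finset.card_le_card_of_injOn (fun p => p - p₀) ?_ ?_
    · intro p hp
      simp at hp h₀ ⊢
      rw [two_nsmul, sub_add_sub_comm, hp, h₀, sub_self]
    · intro p _ q _ h
      simpa using h

theorem card_double_mem_le [IsAddCyclic Γ] (A : Finset Γ) :
    (univ.filter (fun p : Γ => p + p ∈ A)).card ≤ 2 * A.card := by
  refine Finset.card_le_mul_card_image_of_maps_to (f := fun p => p + p) ?_ _ ?_
  · intro p hp
    simpa using hp
  · intro c _
    refine le_trans (Finset.card_le_card ?_) (card_double_le c)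
    intro p hp
    simp at hp ⊢
    exact hp.2

theorem card_diag_le [IsAddCyclic Γ] (A : Finset Γ) :
    (univ.filter (fun p : Γ => (p ∈ A ∧ p + p ∉ A) ∨ (p ∉ A ∧ p + p ∈ A))).card ≤
      3 * min A.card Aᶜ.card := by
  have h1 : (univ.filter (fun p : Γ => (p ∈ A ∧ p + p ∉ A) ∨ (p ∉ A ∧ p + p ∈ A))).card ≤
      3 * A.card := by
    calc _ ≤ (A ∪ univ.filter (fun p : Γ => p + p ∈ A)).card := by
          apply Finset.card_le_card
          intro p hp
          simp at hp ⊢
          tauto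
      _ ≤ A.card + (univ.filter (fun p : Γ => p + p ∈ A)).card := card_union_le _ _
      _ ≤ A.card + 2 * A.card := by gcongr; exact card_double_mem_le A
      _ = _ := by ring
  have h2 : (univ.filter (fun p : Γ => (p ∈ A ∧ p + p ∉ A) ∨ (p ∉ A ∧ p + p ∈ A))).card ≤
      3 * Aᶜ.card := by
    calc _ ≤ (Aᶜ ∪ univ.filter (fun p : Γ => p + p ∈ Aᶜ)).card := by
          apply Finset.card_le_card
          intro p hp
          simp at hp ⊢
          tauto
      _ ≤ Aᶜ.card + (univ.filter (fun p : Γ => p + p ∈ Aᶜ)).card := card_union_le _ _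
      _ ≤ Aᶜ.card + 2 * Aᶜ.card := by gcongr; exact card_double_mem_le Aᶜ
      _ = _ := by ring
  omega

theorem card_Qs_ge [IsAddCyclic Γ] (A W : Finset Γ) (hW : W.card ≤ 7) :
    A.card * Aᶜ.card ≤ (Qs A W).card + (Qs Aᶜ W).card + 3 * min A.card Aᶜ.card + 49 := by
  rw [← card_T]
  have hsub : T A ⊆ Qs A W ∪ Qs Aᶜ W ∪
      (univ.filter (fun p : Γ => (p ∈ A ∧ p + p ∉ A) ∨ (p ∉ A ∧ p + p ∈ A))).image
        (fun p => (p, p)) ∪ W ×ˢ W := by
    rintro ⟨p, q⟩ hx
    simp only [T, Qs, mem_union, mem_filter, mem_univ, true_and, mem_image, mem_product,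
      mem_compl, Prod.mk.injEq, ne_eq] at hx ⊢
    by_cases hpq : p = q
    · subst hpq
      left; right
      exact ⟨p, by tauto, rfl, rfl⟩
    · by_cases hW : p ∈ W ∧ q ∈ W
      · right; exact hW
      · left; left; tauto
  calc (T A).card ≤ _ := Finset.card_le_card hsub
    _ ≤ (Qs A W).card + (Qs Aᶜ W).card + ((univ.filter (fun p : Γ =>
          (p ∈ A ∧ p + p ∉ A) ∨ (p ∉ A ∧ p + p ∈ A))).image (fun p => (p, p))).card +
          (W ×ˢ W).card := by
        refine (card_union_le _ _).trans ?_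
        gcongr
        refine (card_union_le _ _).trans ?_
        gcongr
        exact card_union_le _ _
    _ ≤ (Qs A W).card + (Qs Aᶜ W).card + 3 * min A.card Aᶜ.card + 49 := by
        gcongr
        · exact card_image_le.trans (card_diag_le A)
        · rw [card_product]
          calc W.card * W.card ≤ 7 * 7 := Nat.mul_le_mul hW hW
            _ = 49 := by norm_num

/-- the unordered usable pairs -/
def Fs (A W : Finset Γ) : Finset (Sym2 Γ) := (Qs A W).image (fun x => s(x.1, x.2))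

theorem card_Fs_ge (A W : Finset Γ) : (Qs A W).card ≤ 2 * (Fs A W).card := by
  refine Finset.card_le_mul_card_image _ _ ?_
  intro e he
  simp only [mem_image] at he
  obtain ⟨⟨p, q⟩, _, rfl⟩ := he
  refine le_trans (Finset.card_le_card (t := {(p, q), (q, p)}) ?_) Finset.card_le_two
  rintro ⟨p', q'⟩ h
  simp only [mem_filter, Sym2.eq_iff] at h
  simp only [mem_insert, mem_singleton, Prod.mk.injEq]
  exact h.2

/-- The three edges of the event attached to an unordered pair. -/
def tri (e : Sym2 Γ) : Finset (Sym2 Γ) :=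
  Sym2.lift ⟨fun p q => {s(p, q), s(p, p + q), s(q, p + q)}, by
    intro p q
    ext x
    simp only [mem_insert, mem_singleton]
    rw [Sym2.eq_swap (a := q) (b := p), add_comm q p]
    tauto⟩ e

theorem tri_mk (p q : Γ) : tri s(p, q) = {s(p, q), s(p, p + q), s(q, p + q)} := rfl

theorem tri_disjoint (A W : Finset Γ) (j : Sym2 Γ) (hj : j ∈ Fs A W) (j' : Sym2 Γ)
    (hj' : j' ∈ Fs A W) (hne : j ≠ j') : Disjoint (tri j) (tri j') := by
  simp only [Fs, Qs, mem_image, mem_filter, mem_univ, true_and] at hj hj'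
  obtain ⟨⟨p, q⟩, ⟨_, _, hp, hq, hpq⟩, rfl⟩ := hj
  obtain ⟨⟨p', q'⟩, ⟨_, _, hp', hq', hpq'⟩, rfl⟩ := hj'
  simp only at hp hq hpq hp' hq' hpq' hne ⊢
  rw [Finset.disjoint_left]
  intro x hx hx'
  rw [tri_mk] at hx hx'
  simp only [mem_insert, mem_singleton] at hx hx'
  rw [ne_eq, Sym2.eq_iff] at hne
  rcases hx with rfl | rfl | rfl <;> rcases hx' with h | h | h <;> rw [Sym2.eq_iff] at h
  · exact hne h
  · rcases h with ⟨h1, h2⟩ | ⟨h1, h2⟩
    · exact hpq' (h2 ▸ hq)
    · exact hpq' (h1 ▸ hp)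
  · rcases h with ⟨h1, h2⟩ | ⟨h1, h2⟩
    · exact hpq' (h2 ▸ hq)
    · exact hpq' (h1 ▸ hp)
  · rcases h with ⟨h1, h2⟩ | ⟨h1, h2⟩
    · exact hpq (h2 ▸ hq')
    · exact hpq (h2 ▸ hp')
  · rcases h with ⟨h1, h2⟩ | ⟨h1, h2⟩
    · subst h1
      exact hne (Or.inl ⟨rfl, add_left_cancel h2⟩)
    · exact hpq' (h1 ▸ hp)
  · rcases h with ⟨h1, h2⟩ | ⟨h1, h2⟩
    · subst h1
      rw [add_comm p' p] at h2
      exact hne (Or.inr ⟨rfl, add_left_cancel h2⟩)
    · exact hpq' (h1 ▸ hp)
  · rcases h with ⟨h1, h2⟩ | ⟨h1, h2⟩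
    · exact hpq (h2 ▸ hq')
    · exact hpq (h2 ▸ hp')
  · rcases h with ⟨h1, h2⟩ | ⟨h1, h2⟩
    · subst h1
      rw [add_comm p q] at h2
      exact hne (Or.inr ⟨add_left_cancel h2, rfl⟩)
    · exact hpq' (h1 ▸ hq)
  · rcases h with ⟨h1, h2⟩ | ⟨h1, h2⟩
    · subst h1
      exact hne (Or.inl ⟨add_right_cancel h2, rfl⟩)
    · exact hpq' (h1 ▸ hq)

/-- The configurations for which no usable pair of `A` is violating. -/
def X (A W : Finset Γ) : Finset (Sym2 Γ → Bool) :=
  univ.filter (fun ω => ∀ x ∈ Qs A W, ¬ (ω s(x.1, x.2) = false ∧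
    ω s(x.1, x.1 + x.2) = true ∧ ω s(x.2, x.1 + x.2) = true))

theorem card_X_le (A W : Finset Γ) :
    ((X A W).card : ℝ) ≤ (7 / 8 : ℝ) ^ (Fs A W).card * 2 ^ (Fintype.card (Sym2 Γ)) := by
  have h := count_avoid (ι := Sym2 Γ) (J := Sym2 Γ) tri (fun j i => decide (i ≠ j)) 3 (Fs A W)
    (by
      intro j _
      induction j using Sym2.ind with
      | _ p q => rw [tri_mk]; exact Finset.card_le_three)
    (fun j hj j' hj' hne => tri_disjoint A W j hj j' hj' hne)
  have h78 : (1 - (1 / 2 : ℝ) ^ 3) = 7 / 8 := by norm_num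
  rw [h78] at h
  refine le_trans ?_ h
  norm_cast
  apply Finset.card_le_card
  intro ω hω
  simp only [X, mem_filter, mem_univ, true_and] at hω ⊢
  intro j hj hall
  simp only [Fs, mem_image] at hj
  obtain ⟨⟨p, q⟩, hx, rfl⟩ := hj
  refine hω _ hx ?_
  rw [tri_mk] at hall
  simp only [Qs, mem_filter, mem_univ, true_and] at hx
  obtain ⟨_, _, hp, hq, hpq⟩ := hx
  refine ⟨?_, ?_, ?_⟩
  · have := hall s(p, q) (by simp)
    simpa using this
  · have := hall s(p, p + q) (by simp)
    rw [this]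
    simp only [decide_eq_true_eq, Sym2.eq_iff]
    rintro (⟨_, h⟩ | ⟨_, h⟩)
    · exact hpq (by rw [h]; exact hq)
    · exact hpq (by rw [h]; exact hp)
  · have := hall s(q, p + q) (by simp)
    rw [this]
    simp only [decide_eq_true_eq, Sym2.eq_iff]
    rintro (⟨_, h⟩ | ⟨_, h⟩)
    · exact hpq (by rw [h]; exact hq)
    · exact hpq (by rw [h]; exact hp)

theorem card_XX_le [IsAddCyclic Γ] (A W : Finset Γ) (hW : W.card ≤ 7) (hA : A.Nonempty)
    (hA' : Aᶜ.Nonempty) :
    ((X A W ∩ X Aᶜ W).card : ℝ) ≤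
      ((7 / 8 : ℝ) ^ ((Fintype.card Γ - 104) / 8)) ^ (min A.card Aᶜ.card) *
        2 ^ (Fintype.card (Sym2 Γ)) := by
  set k := (Fintype.card Γ - 104) / 8 with hk
  set b := min A.card Aᶜ.card with hb
  have hb1 : 1 ≤ b := by
    have := hA.card_pos
    have := hA'.card_pos
    omega
  have hn : A.card + Aᶜ.card = Fintype.card Γ := Finset.card_add_card_compl A
  have hmain := card_Qs_ge A W hW
  rw [← hb] at hmain
  have h1 := card_Fs_ge A W
  have h2 := card_Fs_ge Aᶜ W
  have hprod : b * (Fintype.card Γ) ≤ 2 * (A.card * Aᶜ.card) := by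
    rw [← hn]
    rcases le_total A.card Aᶜ.card with h | h
    · have : b = A.card := by omega
      rw [this]; nlinarith
    · have : b = Aᶜ.card := by omega
      rw [this]; nlinarith
  have hk8 : 8 * k ≤ Fintype.card Γ - 104 := by omega
  have hbk : b * (8 * k) ≤ b * (Fintype.card Γ - 104) := Nat.mul_le_mul_left _ hk8
  have hbk2 : b * (Fintype.card Γ - 104) = b * Fintype.card Γ - b * 104 := Nat.mul_sub _ _ _
  have hmax : b * k ≤ max (Fs A W).card (Fs Aᶜ W).card := by
    have e1 : b * (8 * k) = 8 * (b * k) := by ring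
    omega
  rw [← pow_mul, mul_comm k b]
  rcases le_total (Fs A W).card (Fs Aᶜ W).card with h | h
  · rw [max_eq_right h] at hmax
    calc ((X A W ∩ X Aᶜ W).card : ℝ) ≤ ((X Aᶜ W).card : ℝ) := by
          exact_mod_cast Finset.card_le_card Finset.inter_subset_right
      _ ≤ _ := card_X_le _ _
      _ ≤ _ := by
          gcongr ?_ * _
          exact pow_le_pow_of_le_one (by norm_num) (by norm_num) hmax
  · rw [max_eq_left h] at hmax
    calc ((X A W ∩ X Aᶜ W).card : ℝ) ≤ ((X A W).card : ℝ) := by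
          exact_mod_cast Finset.card_le_card Finset.inter_subset_left
      _ ≤ _ := card_X_le _ _
      _ ≤ _ := by
          gcongr ?_ * _
          exact pow_le_pow_of_le_one (by norm_num) (by norm_num) hmax

/-- For a nontrivial partition there is a configuration without usable violating pair. -/
def Y (W : Finset Γ) : Finset (Sym2 Γ → Bool) :=
  univ.filter (fun ω => ∃ A : Finset Γ, A.Nonempty ∧ Aᶜ.Nonempty ∧ ω ∈ X A W ∩ X Aᶜ W)

theorem card_Y_le [IsAddCyclic Γ] (W : Finset Γ) (hW : W.card ≤ 7) :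
    ((Y W).card : ℝ) ≤
      2 * ((1 + (7 / 8 : ℝ) ^ ((Fintype.card Γ - 104) / 8)) ^ (Fintype.card Γ) - 1) *
        2 ^ (Fintype.card (Sym2 Γ)) := by
  classical
  set ρ := (7 / 8 : ℝ) ^ ((Fintype.card Γ - 104) / 8) with hρ
  have hρ0 : 0 ≤ ρ := by positivity
  set 𝒜 := univ.filter (fun A : Finset Γ => A.Nonempty ∧ Aᶜ.Nonempty) with h𝒜
  have hsub : Y W ⊆ 𝒜.biUnion (fun A => X A W ∩ X Aᶜ W) := by
    intro ω hω
    simp only [Y, mem_filter, mem_univ, true_and] at hω
    obtain ⟨A, h1, h2, h3⟩ := hω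
    simp only [mem_biUnion]
    exact ⟨A, by simp [h𝒜, h1, h2], h3⟩
  have h1 : ((Y W).card : ℝ) ≤ ∑ A ∈ 𝒜, ((X A W ∩ X Aᶜ W).card : ℝ) := by
    have := (Finset.card_le_card hsub).trans Finset.card_biUnion_le
    exact_mod_cast this
  have h2 : ∑ A ∈ 𝒜, ((X A W ∩ X Aᶜ W).card : ℝ) ≤
      ∑ A ∈ 𝒜, (ρ ^ A.card + ρ ^ Aᶜ.card) * 2 ^ (Fintype.card (Sym2 Γ)) := by
    apply Finset.sum_le_sum
    intro A hA
    simp only [h𝒜, mem_filter, mem_univ, true_and] at hA
    refine (card_XX_le A W hW hA.1 hA.2).trans ?_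
    rw [← hρ]
    gcongr
    rcases le_total A.card Aᶜ.card with h | h
    · rw [min_eq_left h]
      have : 0 ≤ ρ ^ Aᶜ.card := by positivity
      linarith
    · rw [min_eq_right h]
      have : 0 ≤ ρ ^ A.card := by positivity
      linarith
  have hsum : ∑ A : Finset Γ, ρ ^ A.card = (1 + ρ) ^ (Fintype.card Γ) := by
    have := Fintype.sum_pow_mul_eq_add_pow Γ ρ 1
    simp only [one_pow, mul_one] at this
    rw [this, add_comm]
  have hsum1 : ∑ A ∈ 𝒜, ρ ^ A.card ≤ (1 + ρ) ^ (Fintype.card Γ) - 1 := by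
    rw [← hsum, ← Finset.sum_erase_add univ (fun A : Finset Γ => ρ ^ A.card) (mem_univ ∅)]
    simp only [card_empty, pow_zero, add_sub_cancel_right]
    apply Finset.sum_le_sum_of_subset_of_nonneg
    · intro A hA
      simp only [h𝒜, mem_filter, mem_univ, true_and] at hA
      simp only [mem_erase, mem_univ, and_true]
      exact hA.1.ne_empty
    · intros; positivity
  have hsum2 : ∑ A ∈ 𝒜, ρ ^ Aᶜ.card ≤ (1 + ρ) ^ (Fintype.card Γ) - 1 := by
    refine le_trans (le_of_eq ?_) hsum1
    refine Finset.sum_nbij' (fun A => Aᶜ) (fun A => Aᶜ) ?_ ?_ ?_ ?_ ?_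
    · intro A hA
      simp only [h𝒜, mem_filter, mem_univ, true_and, compl_compl] at hA ⊢
      exact ⟨hA.2, hA.1⟩
    · intro A hA
      simp only [h𝒜, mem_filter, mem_univ, true_and, compl_compl] at hA ⊢
      exact ⟨hA.2, hA.1⟩
    · intros; simp
    · intros; simp
    · intros; simp
  calc ((Y W).card : ℝ) ≤ _ := h1.trans h2
    _ = (∑ A ∈ 𝒜, ρ ^ A.card + ∑ A ∈ 𝒜, ρ ^ Aᶜ.card) * 2 ^ (Fintype.card (Sym2 Γ)) := by
        rw [← Finset.sum_mul, Finset.sum_add_distrib]
    _ ≤ _ := by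
        gcongr
        linarith

end identity

section neighbours

variable {Γ : Type*} [Fintype Γ] [DecidableEq Γ]

/-- Configurations without common neighbour of `p` and `q`. -/
def N (p q : Γ) : Finset (Sym2 Γ → Bool) :=
  univ.filter (fun ω => ∀ z, z ≠ p → z ≠ q → ¬ (ω s(p, z) = true ∧ ω s(q, z) = true))

theorem card_N_le {p q : Γ} (hpq : p ≠ q) :
    ((N p q).card : ℝ) ≤ (3 / 4 : ℝ) ^ (Fintype.card Γ - 2) * 2 ^ (Fintype.card (Sym2 Γ)) := by
  have h := count_avoid (ι := Sym2 Γ) (J := Γ) (fun z => {s(p, z), s(q, z)}) (fun _ _ => true) 2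
    (univ \ {p, q}) (fun _ _ => Finset.card_le_two)
    (by
      intro j hj j' hj' hne
      simp only [mem_sdiff, mem_univ, true_and, mem_insert, mem_singleton, not_or] at hj hj'
      rw [Finset.disjoint_left]
      intro e h1 h2
      simp only [mem_insert, mem_singleton] at h1 h2
      rcases h1 with rfl | rfl <;> rcases h2 with h2 | h2 <;> rw [Sym2.eq_iff] at h2 <;> grind)
  have h34 : (1 - (1 / 2 : ℝ) ^ 2) = 3 / 4 := by norm_num
  have hc : (univ \ {p, q} : Finset Γ).card = Fintype.card Γ - 2 := by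
    rw [Finset.card_sdiff_of_subset (subset_univ _), Finset.card_pair hpq]; rfl
  rw [h34, hc] at h
  refine le_trans ?_ h
  norm_cast
  apply Finset.card_le_card
  intro ω hω
  simp only [N, mem_filter, mem_univ, true_and] at hω ⊢
  intro z hz hall
  simp only [mem_sdiff, mem_univ, true_and, mem_insert, mem_singleton, not_or] at hz
  exact hω z hz.1 hz.2 ⟨hall _ (by simp), hall _ (by simp)⟩

end neighbours

end Pool.Agent.V11238.NPS
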