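import Mathlib

/-!
Consistent path systems: definitions and the deterministic gadget construction.
-/

namespace Pool.Agent.V11238.NPS

variable {V : Type*}

/-- A path system in `G`: for all `u, v` one simple path (list of vertices) from `u` to `v`;
the path from `v` to `u` is the reversed path from `u` to `v`, so that there is exactly one path
for each unordered pair. -/
structure PathSystem (G : SimpleGraph V) where
  /-- the path joining two vertices, as the list of its vertices -/
  P : V → V → List V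
  /-- consecutive vertices are adjacent in `G` -/
  chain : ∀ u v, (P u v).IsChain G.Adj
  /-- the path is simple -/
  nodup : ∀ u v, (P u v).Nodup
  /-- it starts in `u` -/
  head : ∀ u v, (P u v).head? = some u
  /-- it ends in `v` -/
  last : ∀ u v, (P u v).getLast? = some v
  /-- the path of the unordered pair does not depend on the direction -/
  symm : ∀ u v, P v u = (P u v).reverse

/-- Consistency: every segment of a path of the system is the path joining its ends. -/
def PathSystem.Consistent {G : SimpleGraph V} (S : PathSystem G) : Prop :=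
  ∀ u v s, s <:+: S.P u v → ∀ x y, s.head? = some x → s.getLast? = some y → S.P x y = s

/-- Total weight of the edges of a path given by the list of its vertices. -/
def pathWeight (w : Sym2 V → ℝ) : List V → ℝ
  | [] => 0
  | [_] => 0
  | a :: b :: l => w s(a, b) + pathWeight w (b :: l)

/-- The system is metrizable: for some positive edge weights all its paths are shortest paths. -/
def PathSystem.Metrizable {G : SimpleGraph V} (S : PathSystem G) : Prop :=
  ∃ w : Sym2 V → ℝ, (∀ e ∈ G.edgeSet, 0 < w e) ∧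
    ∀ u v (Q : List V), Q.IsChain G.Adj → Q.Nodup → Q.head? = some u → Q.getLast? = some v →
      pathWeight w (S.P u v) ≤ pathWeight w Q

/-- The system is irreducible: there is no partition of the vertex set into two nonempty parts
such that the paths joining two vertices of one part stay in that part. -/
def PathSystem.Irreducible {G : SimpleGraph V} (S : PathSystem G) : Prop :=
  ¬ ∃ A : Set V, A.Nonempty ∧ Aᶜ.Nonempty ∧
    (∀ u ∈ A, ∀ v ∈ A, ∀ z ∈ S.P u v, z ∈ A) ∧ (∀ u ∈ Aᶜ, ∀ v ∈ Aᶜ, ∀ z ∈ S.P u v, z ∈ Aᶜ)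

section gadget

variable [DecidableEq V] (G : SimpleGraph V) [DecidableRel G.Adj] (a b c d u v x : V) (m : V → V → V)

/-- The modified midpoint. -/
def mid (p q : V) : V :=
  if s(p, q) = s(a, b) ∨ s(p, q) = s(c, d) then x
  else if s(p, q) = s(a, v) ∨ s(p, q) = s(b, v) then u
  else if s(p, q) = s(u, c) ∨ s(p, q) = s(u, d) then v
  else m p q

/-- The path. -/
def pth (p q : V) : List V :=
  if p = q then [p]
  else if G.Adj p q then [p, q]
  else if p = a ∧ q = c then [a, u, v, c]
  else if p = c ∧ q = a then [c, v, u, a]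
  else if p = b ∧ q = d then [b, u, v, d]
  else if p = d ∧ q = b then [d, v, u, b]
  else [p, mid a b c d u v x m p q, q]

/-- The adjacency pattern of the gadget. -/
structure Gadget : Prop where
  au : G.Adj a u
  bu : G.Adj b u
  uv : G.Adj u v
  vc : G.Adj v c
  vd : G.Adj v d
  ax : G.Adj a x
  bx : G.Adj b x
  cx : G.Adj c x
  dx : G.Adj d x
  ab : ¬ G.Adj a b
  cd : ¬ G.Adj c d
  ac : ¬ G.Adj a c
  bd : ¬ G.Adj b d
  av : ¬ G.Adj a v
  bv : ¬ G.Adj b v
  uc : ¬ G.Adj u c
  ud : ¬ G.Adj u d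
  nd : [a, b, c, d, u, v, x].Nodup

theorem mid_symm (hm : ∀ p q, m p q = m q p) (p q : V) :
    mid a b c d u v x m p q = mid a b c d u v x m q p := by
  unfold mid
  rw [hm p q, Sym2.eq_swap (a := p) (b := q)]

variable {G a b c d u v x m}

theorem mid_adj (h : Gadget G a b c d u v x)
    (hm : ∀ p q, p ≠ q → ¬ G.Adj p q → G.Adj p (m p q) ∧ G.Adj (m p q) q)
    {p q : V} (hne : p ≠ q) (hpq : ¬ G.Adj p q) :
    G.Adj p (mid a b c d u v x m p q) ∧ G.Adj (mid a b c d u v x m p q) q := by
  unfold mid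
  split_ifs with h1 h2 h3
  · simp only [Sym2.eq_iff] at h1
    rcases h1 with (⟨rfl, rfl⟩ | ⟨rfl, rfl⟩) | (⟨rfl, rfl⟩ | ⟨rfl, rfl⟩)
    · exact ⟨h.ax, h.bx.symm⟩
    · exact ⟨h.bx, h.ax.symm⟩
    · exact ⟨h.cx, h.dx.symm⟩
    · exact ⟨h.dx, h.cx.symm⟩
  · simp only [Sym2.eq_iff] at h2
    rcases h2 with (⟨rfl, rfl⟩ | ⟨rfl, rfl⟩) | (⟨rfl, rfl⟩ | ⟨rfl, rfl⟩)
    · exact ⟨h.au, h.uv⟩
    · exact ⟨h.uv.symm, h.au.symm⟩
    · exact ⟨h.bu, h.uv⟩
    · exact ⟨h.uv.symm, h.bu.symm⟩
  · simp only [Sym2.eq_iff] at h3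
    rcases h3 with (⟨rfl, rfl⟩ | ⟨rfl, rfl⟩) | (⟨rfl, rfl⟩ | ⟨rfl, rfl⟩)
    · exact ⟨h.uv, h.vc⟩
    · exact ⟨h.vc.symm, h.uv.symm⟩
    · exact ⟨h.uv, h.vd⟩
    · exact ⟨h.vd.symm, h.uv.symm⟩
  · exact hm p q hne hpq

theorem mid_ne (h : Gadget G a b c d u v x)
    (hm : ∀ p q, p ≠ q → ¬ G.Adj p q → G.Adj p (m p q) ∧ G.Adj (m p q) q)
    {p q : V} (hne : p ≠ q) (hpq : ¬ G.Adj p q) :
    p ≠ mid a b c d u v x m p q ∧ mid a b c d u v x m p q ≠ q :=
  ⟨(mid_adj h hm hne hpq).1.ne, (mid_adj h hm hne hpq).2.ne⟩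

/-- The path system given by the gadget and a midpoint function. -/
def sys (h : Gadget G a b c d u v x) (hs : ∀ p q, m p q = m q p)
    (hm : ∀ p q, p ≠ q → ¬ G.Adj p q → G.Adj p (m p q) ∧ G.Adj (m p q) q) : PathSystem G where
  P := pth G a b c d u v x m
  chain p q := by
    unfold pth
    split_ifs with h1 h2 h3 h4 h5 h6
    · simp
    · simp [h2]
    · obtain ⟨rfl, rfl⟩ := h3
      simp [h.au, h.uv, h.vc]
    · obtain ⟨rfl, rfl⟩ := h4
      simp [h.au.symm, h.uv.symm, h.vc.symm]
    · obtain ⟨rfl, rfl⟩ := h5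
      simp [h.bu, h.uv, h.vd]
    · obtain ⟨rfl, rfl⟩ := h6
      simp [h.bu.symm, h.uv.symm, h.vd.symm]
    · have := mid_adj h hm h1 h2
      simp [this.1, this.2]
  nodup p q := by
    have hnd := h.nd
    simp only [List.nodup_cons, List.mem_cons, List.not_mem_nil, or_false, not_or] at hnd
    unfold pth
    split_ifs with h1 h2 h3 h4 h5 h6
    · simp
    · simp [h1]
    · obtain ⟨rfl, rfl⟩ := h3
      simp; tauto
    · obtain ⟨rfl, rfl⟩ := h4
      simp [eq_comm]; tauto
    · obtain ⟨rfl, rfl⟩ := h5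
      simp; tauto
    · obtain ⟨rfl, rfl⟩ := h6
      simp [eq_comm]; tauto
    · have := mid_ne h hm h1 h2
      simp [this.1, this.2, h1]
  head p q := by
    unfold pth
    split_ifs with h1 h2 h3 h4 h5 h6 <;> simp_all
  last p q := by
    unfold pth
    split_ifs with h1 h2 h3 h4 h5 h6 <;> simp_all
  symm p q := by
    have hnd := h.nd
    simp only [List.nodup_cons, List.mem_cons, List.not_mem_nil, or_false, not_or] at hnd
    unfold pth
    by_cases h1 : p = q
    · subst h1; simp
    by_cases h2 : G.Adj p q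
    · simp [h1, Ne.symm h1, h2, h2.symm]
    have h1' : q ≠ p := Ne.symm h1
    have h2' : ¬ G.Adj q p := fun h => h2 h.symm
    simp only [h1, h1', h2, h2', if_false]
    by_cases h3 : p = a ∧ q = c
    · obtain ⟨rfl, rfl⟩ := h3
      simp [h1, h1']
    by_cases h4 : p = c ∧ q = a
    · obtain ⟨rfl, rfl⟩ := h4
      simp [h1, h1']
    have h3' : ¬ (q = a ∧ p = c) := fun h => h4 ⟨h.2, h.1⟩
    have h4' : ¬ (q = c ∧ p = a) := fun h => h3 ⟨h.2, h.1⟩
    simp only [h3, h4, h3', h4', if_false]
    by_cases h5 : p = b ∧ q = d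
    · obtain ⟨rfl, rfl⟩ := h5
      simp [h1, h1']
    by_cases h6 : p = d ∧ q = b
    · obtain ⟨rfl, rfl⟩ := h6
      simp [h1, h1']
    have h5' : ¬ (q = b ∧ p = d) := fun h => h6 ⟨h.2, h.1⟩
    have h6' : ¬ (q = d ∧ p = b) := fun h => h5 ⟨h.2, h.1⟩
    simp only [h5, h6, h5', h6', if_false]
    rw [mid_symm a b c d u v x m hs q p]
    simp

/-- Infixes of a list with at most four entries. -/
theorem infix2 {α : Type*} {p q : α} {s : List α} (h : s <:+: [p, q]) :
    s = [] ∨ s = [p] ∨ s = [q] ∨ s = [p, q] := by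
  simp only [List.infix_cons_iff, List.prefix_cons_iff, List.infix_nil, List.prefix_nil] at h
  grind

theorem infix3 {α : Type*} {p r q : α} {s : List α} (h : s <:+: [p, r, q]) :
    s = [] ∨ s = [p] ∨ s = [r] ∨ s = [q] ∨ s = [p, r] ∨ s = [r, q] ∨ s = [p, r, q] := by
  simp only [List.infix_cons_iff, List.prefix_cons_iff, List.infix_nil, List.prefix_nil] at h
  grind

theorem infix4 {α : Type*} {p r t q : α} {s : List α} (h : s <:+: [p, r, t, q]) :
    s = [] ∨ s = [p] ∨ s = [r] ∨ s = [t] ∨ s = [q] ∨ s = [p, r] ∨ s = [r, t] ∨ s = [t, q] ∨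
      s = [p, r, t] ∨ s = [r, t, q] ∨ s = [p, r, t, q] := by
  simp only [List.infix_cons_iff, List.prefix_cons_iff, List.infix_nil, List.prefix_nil] at h
  grind

theorem pth_self (p : V) : pth G a b c d u v x m p p = [p] := by simp [pth]

theorem pth_adj {p q : V} (h : G.Adj p q) : pth G a b c d u v x m p q = [p, q] := by
  simp [pth, h, h.ne]

theorem Gadget.swap (h : Gadget G a b c d u v x) : Gadget G c d a b v u x := by
  have hnd := h.nd
  refine ⟨h.vc.symm, h.vd.symm, h.uv.symm, h.au.symm, h.bu.symm, h.cx, h.dx, h.ax, h.bx, h.cd, h.ab,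
    fun k => h.ac k.symm, fun k => h.bd k.symm, fun k => h.uc k.symm, fun k => h.ud k.symm,
    fun k => h.av k.symm, fun k => h.bv k.symm, ?_⟩
  simp only [List.nodup_cons, List.mem_cons, List.not_mem_nil, or_false, not_or] at hnd ⊢
  grind

theorem pth_ac (h : Gadget G a b c d u v x) : pth G a b c d u v x m a c = [a, u, v, c] := by
  have hnd := h.nd
  simp only [List.nodup_cons, List.mem_cons, List.not_mem_nil, or_false, not_or] at hnd
  simp [pth, h.ac, hnd]

theorem pth_ca (h : Gadget G a b c d u v x) : pth G a b c d u v x m c a = [c, v, u, a] := by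
  have hnd := h.nd
  simp only [List.nodup_cons, List.mem_cons, List.not_mem_nil, or_false, not_or] at hnd
  have : ¬ G.Adj c a := fun k => h.ac k.symm
  simp only [pth]
  grind

theorem pth_bd (h : Gadget G a b c d u v x) : pth G a b c d u v x m b d = [b, u, v, d] := by
  have hnd := h.nd
  simp only [List.nodup_cons, List.mem_cons, List.not_mem_nil, or_false, not_or] at hnd
  have := h.bd
  simp only [pth]
  grind

theorem pth_db (h : Gadget G a b c d u v x) : pth G a b c d u v x m d b = [d, v, u, b] := by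
  have hnd := h.nd
  simp only [List.nodup_cons, List.mem_cons, List.not_mem_nil, or_false, not_or] at hnd
  have : ¬ G.Adj d b := fun k => h.bd k.symm
  simp only [pth]
  grind

theorem pth_mid {p q : V} (h1 : p ≠ q) (h2 : ¬ G.Adj p q) (h3 : ¬ (p = a ∧ q = c))
    (h4 : ¬ (p = c ∧ q = a)) (h5 : ¬ (p = b ∧ q = d)) (h6 : ¬ (p = d ∧ q = b)) :
    pth G a b c d u v x m p q = [p, mid a b c d u v x m p q, q] := by
  simp [pth, h1, h2, h3, h4, h5, h6]

theorem pth_ab (h : Gadget G a b c d u v x) : pth G a b c d u v x m a b = [a, x, b] := by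
  have hnd := h.nd
  simp only [List.nodup_cons, List.mem_cons, List.not_mem_nil, or_false, not_or] at hnd
  rw [pth_mid (by grind) h.ab (by grind) (by grind) (by grind) (by grind)]
  simp [mid]

theorem pth_cd (h : Gadget G a b c d u v x) : pth G a b c d u v x m c d = [c, x, d] := by
  have hnd := h.nd
  simp only [List.nodup_cons, List.mem_cons, List.not_mem_nil, or_false, not_or] at hnd
  rw [pth_mid (by grind) h.cd (by grind) (by grind) (by grind) (by grind)]
  simp [mid]

theorem pth_av (h : Gadget G a b c d u v x) : pth G a b c d u v x m a v = [a, u, v] := by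
  have hnd := h.nd
  simp only [List.nodup_cons, List.mem_cons, List.not_mem_nil, or_false, not_or] at hnd
  rw [pth_mid (by grind) h.av (by grind) (by grind) (by grind) (by grind)]
  have h1 : ¬ (s(a, v) = s(a, b) ∨ s(a, v) = s(c, d)) := by
    simp only [Sym2.eq_iff]; grind
  unfold mid
  rw [if_neg h1, if_pos (Or.inl rfl)]

theorem pth_bv (h : Gadget G a b c d u v x) : pth G a b c d u v x m b v = [b, u, v] := by
  have hnd := h.nd
  simp only [List.nodup_cons, List.mem_cons, List.not_mem_nil, or_false, not_or] at hnd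
  rw [pth_mid (by grind) h.bv (by grind) (by grind) (by grind) (by grind)]
  have h1 : ¬ (s(b, v) = s(a, b) ∨ s(b, v) = s(c, d)) := by
    simp only [Sym2.eq_iff]; grind
  unfold mid
  rw [if_neg h1, if_pos (Or.inr rfl)]

theorem pth_uc (h : Gadget G a b c d u v x) : pth G a b c d u v x m u c = [u, v, c] := by
  have hnd := h.nd
  simp only [List.nodup_cons, List.mem_cons, List.not_mem_nil, or_false, not_or] at hnd
  rw [pth_mid (by grind) h.uc (by grind) (by grind) (by grind) (by grind)]
  have h1 : ¬ (s(u, c) = s(a, b) ∨ s(u, c) = s(c, d)) := by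
    simp only [Sym2.eq_iff]; grind
  have h2 : ¬ (s(u, c) = s(a, v) ∨ s(u, c) = s(b, v)) := by
    simp only [Sym2.eq_iff]; grind
  unfold mid
  rw [if_neg h1, if_neg h2, if_pos (Or.inl rfl)]

theorem pth_ud (h : Gadget G a b c d u v x) : pth G a b c d u v x m u d = [u, v, d] := by
  have hnd := h.nd
  simp only [List.nodup_cons, List.mem_cons, List.not_mem_nil, or_false, not_or] at hnd
  rw [pth_mid (by grind) h.ud (by grind) (by grind) (by grind) (by grind)]
  have h1 : ¬ (s(u, d) = s(a, b) ∨ s(u, d) = s(c, d)) := by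
    simp only [Sym2.eq_iff]; grind
  have h2 : ¬ (s(u, d) = s(a, v) ∨ s(u, d) = s(b, v)) := by
    simp only [Sym2.eq_iff]; grind
  unfold mid
  rw [if_neg h1, if_neg h2, if_pos (Or.inr rfl)]

theorem sys_P (h : Gadget G a b c d u v x) (hs : ∀ p q, m p q = m q p)
    (hm : ∀ p q, p ≠ q → ¬ G.Adj p q → G.Adj p (m p q) ∧ G.Adj (m p q) q) (p q : V) :
    (sys h hs hm).P p q = pth G a b c d u v x m p q := rfl

theorem sys_consistent (h : Gadget G a b c d u v x) (hs : ∀ p q, m p q = m q p)
    (hm : ∀ p q, p ≠ q → ¬ G.Adj p q → G.Adj p (m p q) ∧ G.Adj (m p q) q) :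
    (sys h hs hm).Consistent := by
  intro p q s hi y z hy hz
  have key : ∀ p q, (sys h hs hm).P q p = ((sys h hs hm).P p q).reverse := (sys h hs hm).symm
  rw [sys_P] at hi ⊢
  have hself : ∀ p, pth G a b c d u v x m p p = [p] := fun p => pth_self p
  have hadj : ∀ {p q}, G.Adj p q → pth G a b c d u v x m p q = [p, q] := fun h => pth_adj h
  have hrev : ∀ p q, pth G a b c d u v x m q p = (pth G a b c d u v x m p q).reverse :=
    fun p q => key p q
  by_cases h1 : p = q
  · subst h1
    rw [hself] at hi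
    simp only [List.infix_cons_iff, List.prefix_cons_iff, List.infix_nil, List.prefix_nil] at hi
    have : s = [] ∨ s = [p] := by grind
    rcases this with rfl | rfl
    · simp at hy
    · simp at hy hz; subst hy; subst hz; exact hself _
  by_cases h2 : G.Adj p q
  · rw [hadj h2] at hi
    rcases infix2 hi with rfl | rfl | rfl | rfl <;> simp at hy hz <;> subst hy <;> subst hz
    · exact hself _
    · exact hself _
    · exact hadj h2
  by_cases h3 : p = a ∧ q = c
  · obtain ⟨rfl, rfl⟩ := h3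
    rw [pth_ac h] at hi
    rcases infix4 hi with rfl | rfl | rfl | rfl | rfl | rfl | rfl | rfl | rfl | rfl | rfl <;>
      simp at hy hz <;> subst hy <;> subst hz
    · exact hself _
    · exact hself _
    · exact hself _
    · exact hself _
    · exact hadj h.au
    · exact hadj h.uv
    · exact hadj h.vc
    · exact pth_av h
    · exact pth_uc h
    · exact pth_ac h
  by_cases h4 : p = c ∧ q = a
  · obtain ⟨rfl, rfl⟩ := h4
    rw [pth_ca h] at hi
    rcases infix4 hi with rfl | rfl | rfl | rfl | rfl | rfl | rfl | rfl | rfl | rfl | rfl <;>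
      simp at hy hz <;> subst hy <;> subst hz
    · exact hself _
    · exact hself _
    · exact hself _
    · exact hself _
    · exact hadj h.vc.symm
    · exact hadj h.uv.symm
    · exact hadj h.au.symm
    · rw [hrev, pth_uc h]; rfl
    · rw [hrev, pth_av h]; rfl
    · exact pth_ca h
  by_cases h5 : p = b ∧ q = d
  · obtain ⟨rfl, rfl⟩ := h5
    rw [pth_bd h] at hi
    rcases infix4 hi with rfl | rfl | rfl | rfl | rfl | rfl | rfl | rfl | rfl | rfl | rfl <;>
      simp at hy hz <;> subst hy <;> subst hz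
    · exact hself _
    · exact hself _
    · exact hself _
    · exact hself _
    · exact hadj h.bu
    · exact hadj h.uv
    · exact hadj h.vd
    · exact pth_bv h
    · exact pth_ud h
    · exact pth_bd h
  by_cases h6 : p = d ∧ q = b
  · obtain ⟨rfl, rfl⟩ := h6
    rw [pth_db h] at hi
    rcases infix4 hi with rfl | rfl | rfl | rfl | rfl | rfl | rfl | rfl | rfl | rfl | rfl <;>
      simp at hy hz <;> subst hy <;> subst hz
    · exact hself _
    · exact hself _
    · exact hself _
    · exact hself _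
    · exact hadj h.vd.symm
    · exact hadj h.uv.symm
    · exact hadj h.bu.symm
    · rw [hrev, pth_ud h]; rfl
    · rw [hrev, pth_bv h]; rfl
    · exact pth_db h
  have hma := mid_adj h hm h1 h2
  have hp := pth_mid (u := u) (v := v) (x := x) (m := m) h1 h2 h3 h4 h5 h6
  rw [hp] at hi
  rcases infix3 hi with rfl | rfl | rfl | rfl | rfl | rfl | rfl <;>
    simp at hy hz <;> subst hy <;> subst hz
  · exact hself _
  · exact hself _
  · exact hself _
  · exact hadj hma.1
  · exact hadj hma.2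
  · exact hp

theorem sys_not_metrizable (h : Gadget G a b c d u v x) (hs : ∀ p q, m p q = m q p)
    (hm : ∀ p q, p ≠ q → ¬ G.Adj p q → G.Adj p (m p q) ∧ G.Adj (m p q) q) :
    ¬ (sys h hs hm).Metrizable := by
  rintro ⟨w, hw, hle⟩
  have hnd := h.nd
  simp only [List.nodup_cons, List.mem_cons, List.not_mem_nil, or_false, not_or] at hnd
  have e1 := hle a b [a, u, b] (by simp [h.au, h.bu.symm]) (by simp; grind) (by simp) (by simp)
  have e2 := hle c d [c, v, d] (by simp [h.vc.symm, h.vd]) (by simp; grind) (by simp) (by simp)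
  have e3 := hle a c [a, x, c] (by simp [h.ax, h.cx.symm]) (by simp; grind) (by simp) (by simp)
  have e4 := hle b d [b, x, d] (by simp [h.bx, h.dx.symm]) (by simp; grind) (by simp) (by simp)
  rw [sys_P, pth_ab h] at e1
  rw [sys_P, pth_cd h] at e2
  rw [sys_P, pth_ac h] at e3
  rw [sys_P, pth_bd h] at e4
  simp only [pathWeight] at e1 e2 e3 e4
  have huv := hw s(u, v) h.uv
  rw [Sym2.eq_swap (a := x) (b := b), Sym2.eq_swap (a := u) (b := b)] at e1
  rw [Sym2.eq_swap (a := c) (b := v), Sym2.eq_swap (a := x) (b := d)] at e2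
  rw [Sym2.eq_swap (a := x) (b := c)] at e3
  rw [Sym2.eq_swap (a := x) (b := d)] at e4
  linarith

theorem sys_irreducible (h : Gadget G a b c d u v x) (hs : ∀ p q, m p q = m q p)
    (hm : ∀ p q, p ≠ q → ¬ G.Adj p q → G.Adj p (m p q) ∧ G.Adj (m p q) q)
    (hirr : ∀ A : Set V, A.Nonempty → Aᶜ.Nonempty → ∃ p q, p ≠ q ∧ ¬ G.Adj p q ∧
      ((p ∈ A ∧ q ∈ A ∧ m p q ∉ A) ∨ (p ∉ A ∧ q ∉ A ∧ m p q ∈ A)) ∧
      ¬ (p ∈ [a, b, c, d, u, v, x] ∧ q ∈ [a, b, c, d, u, v, x])) :
    (sys h hs hm).Irreducible := by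
  rintro ⟨A, hA, hA', hc, hc'⟩
  obtain ⟨p, q, hne, hpq, hor, hout⟩ := hirr A hA hA'
  have hmid : mid a b c d u v x m p q = m p q := by
    have h1 : ¬ (s(p, q) = s(a, b) ∨ s(p, q) = s(c, d)) := by
      simp only [Sym2.eq_iff]
      rintro ((⟨rfl, rfl⟩ | ⟨rfl, rfl⟩) | (⟨rfl, rfl⟩ | ⟨rfl, rfl⟩)) <;> simp at hout
    have h2 : ¬ (s(p, q) = s(a, v) ∨ s(p, q) = s(b, v)) := by
      simp only [Sym2.eq_iff]
      rintro ((⟨rfl, rfl⟩ | ⟨rfl, rfl⟩) | (⟨rfl, rfl⟩ | ⟨rfl, rfl⟩)) <;> simp at hout
    have h3 : ¬ (s(p, q) = s(u, c) ∨ s(p, q) = s(u, d)) := by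
      simp only [Sym2.eq_iff]
      rintro ((⟨rfl, rfl⟩ | ⟨rfl, rfl⟩) | (⟨rfl, rfl⟩ | ⟨rfl, rfl⟩)) <;> simp at hout
    simp only [mid, h1, h2, h3, if_false]
  have hpth : pth G a b c d u v x m p q = [p, m p q, q] := by
    rw [pth_mid hne hpq, hmid]
    · rintro ⟨rfl, rfl⟩; simp at hout
    · rintro ⟨rfl, rfl⟩; simp at hout
    · rintro ⟨rfl, rfl⟩; simp at hout
    · rintro ⟨rfl, rfl⟩; simp at hout
  rcases hor with ⟨hp, hq, hmem⟩ | ⟨hp, hq, hmem⟩
  · exact hmem (hc p hp q hq (m p q) (by rw [sys_P, hpth]; simp))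
  · exact hc' p hp q hq (m p q) (by rw [sys_P, hpth]; simp) hmem

end gadget

end Pool.Agent.V11238.NPS
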