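import Mathlib
import Pool.Agent.V11238.NPS.Sys
import Pool.Agent.V11238.NPS.Count

/-!
The random graph argument.
-/

namespace Pool.Agent.V11238.NPS

open Finset Filter Topology

/-- The graph given by a configuration. -/
def Gr {V : Type*} (ω : Sym2 V → Bool) : SimpleGraph V where
  Adj p q := p ≠ q ∧ ω s(p, q) = true
  symm := ⟨fun p q h => ⟨h.1.symm, by rw [Sym2.eq_swap]; exact h.2⟩⟩
  loopless := ⟨fun p h => h.1 rfl⟩

/-- The edges of the gadget. -/
def E0 : Finset (Sym2 (Fin 7)) :=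
  {s(0, 4), s(1, 4), s(4, 5), s(5, 2), s(5, 3), s(0, 6), s(1, 6), s(2, 6), s(3, 6)}

/-- The property to be proved for almost all graphs. -/
def Good {V : Type*} (G : SimpleGraph V) : Prop :=
  ∃ S : PathSystem G, S.Consistent ∧ S.Irreducible ∧ ¬ S.Metrizable

theorem criterion {Γ : Type*} [AddCommGroup Γ] [Fintype Γ] [DecidableEq Γ] (ω : Sym2 Γ → Bool)
    (g : Fin 7 → Γ) (hinj : Function.Injective g)
    (hg : ∀ e : Sym2 (Fin 7), ω (Sym2.map g e) = decide (e ∈ E0))
    (hN : ∀ p q, p ≠ q → ω ∉ N p q) (hY : ω ∉ Y (univ.image g)) : Good (Gr ω) := by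
  classical
  have hedge : ∀ i j : Fin 7, i ≠ j → s(i, j) ∈ E0 → (Gr ω).Adj (g i) (g j) := by
    intro i j hij h
    refine ⟨fun h => hij (hinj h), ?_⟩
    have := hg s(i, j)
    rw [Sym2.map_mk] at this
    rw [this]; simpa using h
  have hnedge : ∀ i j : Fin 7, s(i, j) ∉ E0 → ¬ (Gr ω).Adj (g i) (g j) := by
    intro i j h hadj
    have := hg s(i, j)
    rw [Sym2.map_mk] at this
    rw [hadj.2] at this
    simp [h] at this
  have hgad : Gadget (Gr ω) (g 0) (g 1) (g 2) (g 3) (g 4) (g 5) (g 6) :=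
    { au := hedge 0 4 (by decide) (by decide)
      bu := hedge 1 4 (by decide) (by decide)
      uv := hedge 4 5 (by decide) (by decide)
      vc := hedge 5 2 (by decide) (by decide)
      vd := hedge 5 3 (by decide) (by decide)
      ax := hedge 0 6 (by decide) (by decide)
      bx := hedge 1 6 (by decide) (by decide)
      cx := hedge 2 6 (by decide) (by decide)
      dx := hedge 3 6 (by decide) (by decide)
      ab := hnedge 0 1 (by decide)
      cd := hnedge 2 3 (by decide)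
      ac := hnedge 0 2 (by decide)
      bd := hnedge 1 3 (by decide)
      av := hnedge 0 5 (by decide)
      bv := hnedge 1 5 (by decide)
      uc := hnedge 4 2 (by decide)
      ud := hnedge 4 3 (by decide)
      nd := by
        have : [g 0, g 1, g 2, g 3, g 4, g 5, g 6] = [0, 1, 2, 3, 4, 5, 6].map g := rfl
        rw [this]
        exact List.Nodup.map hinj (by decide) }
  have hW : ∀ y, y ∈ [g 0, g 1, g 2, g 3, g 4, g 5, g 6] → y ∈ univ.image g := by
    intro y hy
    have : [g 0, g 1, g 2, g 3, g 4, g 5, g 6] = [0, 1, 2, 3, 4, 5, 6].map g := rfl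
    rw [this, List.mem_map] at hy
    obtain ⟨i, _, rfl⟩ := hy
    simp
  -- common neighbours
  have hcn : ∀ p q : Γ, p ≠ q → ∃ z, (Gr ω).Adj p z ∧ (Gr ω).Adj z q := by
    intro p q hpq
    have := hN p q hpq
    simp only [N, mem_filter, mem_univ, true_and, not_forall, not_not] at this
    obtain ⟨z, h1, h2, h3, h4⟩ := this
    exact ⟨z, ⟨h1.symm, h3⟩, ⟨h2, by rw [Sym2.eq_swap]; exact h4⟩⟩
  let cn : Sym2 Γ → Γ := fun e => if h : ∃ z, ∀ y ∈ e, (Gr ω).Adj y z then h.choose else 0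
  let m : Γ → Γ → Γ := fun p q => if ∀ y ∈ s(p, q), (Gr ω).Adj y (p + q) then p + q else cn s(p, q)
  have hm1 : ∀ p q, (Gr ω).Adj p (p + q) → (Gr ω).Adj q (p + q) → m p q = p + q := by
    intro p q h1 h2
    have : ∀ y ∈ s(p, q), (Gr ω).Adj y (p + q) := by
      intro y hy
      rcases Sym2.mem_iff.mp hy with rfl | rfl
      · exact h1
      · exact h2
    simp only [m]
    rw [if_pos this]
  have hsymm : ∀ p q, m p q = m q p := by
    intro p q
    simp only [m]
    rw [Sym2.eq_swap (a := p) (b := q), add_comm p q]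
  have hmadj : ∀ p q, p ≠ q → ¬ (Gr ω).Adj p q → (Gr ω).Adj p (m p q) ∧ (Gr ω).Adj (m p q) q := by
    intro p q hpq _
    simp only [m]
    split_ifs with h
    · exact ⟨h p (Sym2.mem_mk_left _ _), (h q (Sym2.mem_mk_right _ _)).symm⟩
    · have hex : ∃ z, ∀ y ∈ s(p, q), (Gr ω).Adj y z := by
        obtain ⟨z, h1, h2⟩ := hcn p q hpq
        refine ⟨z, fun y hy => ?_⟩
        rcases Sym2.mem_iff.mp hy with rfl | rfl
        · exact h1
        · exact h2.symm
      simp only [cn]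
      rw [dif_pos hex]
      exact ⟨hex.choose_spec p (Sym2.mem_mk_left _ _),
        (hex.choose_spec q (Sym2.mem_mk_right _ _)).symm⟩
  refine ⟨sys hgad hsymm hmadj, sys_consistent hgad hsymm hmadj,
    sys_irreducible hgad hsymm hmadj ?_, sys_not_metrizable hgad hsymm hmadj⟩
  intro A hA hA'
  have hkey : ∀ B : Finset Γ, ω ∉ X B (univ.image g) → ∃ p q, p ≠ q ∧ ¬ (Gr ω).Adj p q ∧
      (p ∈ B ∧ q ∈ B ∧ m p q ∉ B) ∧
      ¬ (p ∈ [g 0, g 1, g 2, g 3, g 4, g 5, g 6] ∧ q ∈ [g 0, g 1, g 2, g 3, g 4, g 5, g 6]) := by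
    intro B hB
    simp only [X, mem_filter, mem_univ, true_and, not_forall, not_not] at hB
    obtain ⟨⟨p, q⟩, hx, h1, h2, h3⟩ := hB
    simp only [Qs, mem_filter, mem_univ, true_and] at hx
    obtain ⟨hne, hnW, hp, hq, hpq⟩ := hx
    have e1 : (Gr ω).Adj p (p + q) := ⟨fun h => hpq (h ▸ hp), h2⟩
    have e2 : (Gr ω).Adj q (p + q) := ⟨fun h => hpq (h ▸ hq), h3⟩
    refine ⟨p, q, hne, fun h => ?_, ⟨hp, hq, ?_⟩, fun h => hnW ⟨hW _ h.1, hW _ h.2⟩⟩
    · rw [h.2] at h1; exact Bool.noConfusion h1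
    · rw [hm1 p q e1 e2]; exact hpq
  have hnot : ω ∉ X A.toFinset (univ.image g) ∩ X A.toFinsetᶜ (univ.image g) := by
    intro h
    apply hY
    simp only [Y, mem_filter, mem_univ, true_and]
    refine ⟨A.toFinset, by simpa using hA, ?_, h⟩
    obtain ⟨y, hy⟩ := hA'
    exact ⟨y, by simpa using hy⟩
  rw [mem_inter, not_and_or] at hnot
  rcases hnot with h | h
  · obtain ⟨p, q, h1, h2, ⟨h3, h4, h5⟩, h6⟩ := hkey _ h
    simp only [Set.mem_toFinset] at h3 h4 h5
    exact ⟨p, q, h1, h2, Or.inl ⟨h3, h4, h5⟩, h6⟩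
  · obtain ⟨p, q, h1, h2, ⟨h3, h4, h5⟩, h6⟩ := hkey _ h
    simp only [mem_compl, Set.mem_toFinset, not_not] at h3 h4 h5
    exact ⟨p, q, h1, h2, Or.inr ⟨h3, h4, h5⟩, h6⟩

section gadget

variable {V : Type*} [Fintype V] [DecidableEq V]

/-- Configurations in which no block carries the gadget. -/
def M {k : ℕ} (f : Fin k × Fin 7 ↪ V) : Finset (Sym2 V → Bool) :=
  univ.filter (fun ω => ∀ j : Fin k,
    ¬ ∀ e : Sym2 (Fin 7), ω (Sym2.map (fun i => f (j, i)) e) = decide (e ∈ E0))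

theorem card_M_le {k : ℕ} (f : Fin k × Fin 7 ↪ V) :
    ((M f).card : ℝ) ≤ (1 - (1 / 2 : ℝ) ^ 28) ^ k * 2 ^ (Fintype.card (Sym2 V)) := by
  have hinj : ∀ j : Fin k, Function.Injective (fun i => f (j, i)) := by
    intro j i i' h
    have := f.injective h
    simpa using this
  have h := count_avoid (ι := Sym2 V) (J := Fin k)
    (fun j => (univ : Finset (Sym2 (Fin 7))).image (Sym2.map (fun i => f (j, i))))
    (fun j e => decide (e ∈ E0.image (Sym2.map (fun i => f (j, i))))) 28 univ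
    (by
      intro j _
      refine Finset.card_image_le.trans ?_
      decide)
    (by
      intro j _ j' _ hne
      rw [Finset.disjoint_left]
      intro e h1 h2
      simp only [mem_image, mem_univ, true_and] at h1 h2
      obtain ⟨e1, rfl⟩ := h1
      obtain ⟨e2, h2⟩ := h2
      induction e1 using Sym2.ind with
      | _ i i' =>
        have : f (j, i) ∈ Sym2.map (fun i => f (j', i)) e2 := by
          rw [h2, Sym2.map_mk]; exact Sym2.mem_mk_left _ _
        rw [Sym2.mem_map] at this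
        obtain ⟨i2, _, h3⟩ := this
        have := f.injective h3
        simp only [Prod.mk.injEq] at this
        exact hne this.1.symm)
  rw [card_univ, Fintype.card_fin] at h
  refine le_trans ?_ h
  norm_cast
  apply Finset.card_le_card
  intro ω hω
  simp only [M, mem_filter, mem_univ, true_and] at hω ⊢
  intro j _ hall
  refine hω j fun e => ?_
  rw [hall _ (mem_image_of_mem _ (mem_univ _))]
  congr 1
  rw [(Sym2.map.injective (hinj j)).mem_finset_image]

end gadget

theorem bad_le {Γ : Type*} [AddCommGroup Γ] [Fintype Γ] [DecidableEq Γ] [IsAddCyclic Γ] :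
    (Nat.card {ω : Sym2 Γ → Bool // ¬ Good (Gr ω)} : ℝ) ≤
      ((Fintype.card Γ : ℝ) ^ 2 * (3 / 4 : ℝ) ^ (Fintype.card Γ - 2) +
        (1 - (1 / 2 : ℝ) ^ 28) ^ (Fintype.card Γ / 7) +
        (Fintype.card Γ : ℝ) *
          (2 * ((1 + (7 / 8 : ℝ) ^ ((Fintype.card Γ - 104) / 8)) ^ (Fintype.card Γ) - 1))) *
        2 ^ (Fintype.card (Sym2 Γ)) := by
  classical
  set n := Fintype.card Γ with hn
  obtain ⟨f⟩ : Nonempty (Fin (n / 7) × Fin 7 ↪ Γ) := by
    apply Function.Embedding.nonempty_of_card_le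
    rw [Fintype.card_prod, Fintype.card_fin, Fintype.card_fin]
    omega
  have hinj : ∀ j : Fin (n / 7), Function.Injective (fun i => f (j, i)) := by
    intro j i i' h
    have := f.injective h
    simpa using this
  set W : Fin (n / 7) → Finset Γ := fun j => univ.image (fun i => f (j, i)) with hW
  set PQ := (univ : Finset (Γ × Γ)).filter (fun x => x.1 ≠ x.2) with hPQ
  have hsub : (univ.filter (fun ω : Sym2 Γ → Bool => ¬ Good (Gr ω))) ⊆
      PQ.biUnion (fun x => N x.1 x.2) ∪ M f ∪ (univ : Finset (Fin (n / 7))).biUnion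
        (fun j => Y (W j)) := by
    intro ω hω
    simp only [mem_filter, mem_univ, true_and] at hω
    by_contra hcon
    simp only [mem_union, mem_biUnion, not_or, not_exists, not_and, hPQ, mem_filter,
      mem_univ, true_and] at hcon
    obtain ⟨⟨h1, h2⟩, h3⟩ := hcon
    have h2' := fun h => h2 (mem_filter.mpr ⟨mem_univ _, h⟩)
    rw [imp_false, not_forall] at h2'
    obtain ⟨j, hj⟩ := h2'
    rw [not_not] at hj
    exact hω (criterion ω (fun i => f (j, i)) (hinj j) hj (fun p q hpq => h1 (p, q) hpq) (h3 j))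
  have hcard : Nat.card {ω : Sym2 Γ → Bool // ¬ Good (Gr ω)} =
      (univ.filter (fun ω : Sym2 Γ → Bool => ¬ Good (Gr ω))).card := by
    rw [Nat.card_eq_fintype_card, Fintype.card_subtype]
  rw [hcard]
  have hb1 : ((PQ.biUnion (fun x => N x.1 x.2)).card : ℝ) ≤
      (n : ℝ) ^ 2 * (3 / 4 : ℝ) ^ (n - 2) * 2 ^ (Fintype.card (Sym2 Γ)) := by
    have h1 : ((PQ.biUnion (fun x => N x.1 x.2)).card : ℝ) ≤
        ∑ x ∈ PQ, ((N x.1 x.2).card : ℝ) := by
      exact_mod_cast Finset.card_biUnion_le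
    refine h1.trans ?_
    have h2 : ∑ x ∈ PQ, ((N x.1 x.2).card : ℝ) ≤
        ∑ x ∈ PQ, (3 / 4 : ℝ) ^ (n - 2) * 2 ^ (Fintype.card (Sym2 Γ)) := by
      apply Finset.sum_le_sum
      intro x hx
      simp only [hPQ, mem_filter, mem_univ, true_and] at hx
      exact card_N_le hx
    refine h2.trans ?_
    rw [Finset.sum_const, nsmul_eq_mul, mul_assoc]
    gcongr
    have h3 : PQ.card ≤ n ^ 2 := by
      calc PQ.card ≤ (univ : Finset (Γ × Γ)).card := Finset.card_le_card (Finset.filter_subset _ _)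
        _ = n ^ 2 := by rw [card_univ, Fintype.card_prod, sq]
    exact_mod_cast h3
  have hb2 := card_M_le f
  have hWc : ∀ j, (W j).card ≤ 7 := by
    intro j
    calc (W j).card ≤ (univ : Finset (Fin 7)).card := Finset.card_image_le
      _ = 7 := by simp
  have hY0 : (0 : ℝ) ≤ 2 * ((1 + (7 / 8 : ℝ) ^ ((n - 104) / 8)) ^ n - 1) := by
    have : (1 : ℝ) ≤ (1 + (7 / 8 : ℝ) ^ ((n - 104) / 8)) ^ n := by
      apply one_le_pow₀
      have : (0 : ℝ) ≤ (7 / 8 : ℝ) ^ ((n - 104) / 8) := by positivity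
      linarith
    linarith
  have hb3 : (((univ : Finset (Fin (n / 7))).biUnion (fun j => Y (W j))).card : ℝ) ≤
      (n : ℝ) * (2 * ((1 + (7 / 8 : ℝ) ^ ((n - 104) / 8)) ^ n - 1)) *
        2 ^ (Fintype.card (Sym2 Γ)) := by
    have h1 : (((univ : Finset (Fin (n / 7))).biUnion (fun j => Y (W j))).card : ℝ) ≤
        ∑ j : Fin (n / 7), ((Y (W j)).card : ℝ) := by
      exact_mod_cast Finset.card_biUnion_le
    refine h1.trans ?_
    have h2 : ∑ j : Fin (n / 7), ((Y (W j)).card : ℝ) ≤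
        ∑ j : Fin (n / 7), 2 * ((1 + (7 / 8 : ℝ) ^ ((n - 104) / 8)) ^ n - 1) *
          2 ^ (Fintype.card (Sym2 Γ)) :=
      Finset.sum_le_sum fun j _ => card_Y_le (W j) (hWc j)
    refine h2.trans ?_
    rw [Finset.sum_const, nsmul_eq_mul, card_univ, Fintype.card_fin, mul_assoc (n : ℝ)]
    gcongr
    exact Nat.div_le_self _ _
  have htot : ((univ.filter (fun ω : Sym2 Γ → Bool => ¬ Good (Gr ω))).card : ℝ) ≤
      ((PQ.biUnion (fun x => N x.1 x.2)).card : ℝ) + ((M f).card : ℝ) +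
      (((univ : Finset (Fin (n / 7))).biUnion (fun j => Y (W j))).card : ℝ) := by
    have h1 := Finset.card_le_card hsub
    have h2 := Finset.card_union_le (PQ.biUnion (fun x => N x.1 x.2) ∪ M f)
      ((univ : Finset (Fin (n / 7))).biUnion (fun j => Y (W j)))
    have h3 := Finset.card_union_le (PQ.biUnion (fun x => N x.1 x.2)) (M f)
    have : (univ.filter (fun ω : Sym2 Γ → Bool => ¬ Good (Gr ω))).card ≤
      (PQ.biUnion (fun x => N x.1 x.2)).card + (M f).card +
      ((univ : Finset (Fin (n / 7))).biUnion (fun j => Y (W j))).card := by omega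
    exact_mod_cast this
  calc _ ≤ _ := htot
    _ ≤ (n : ℝ) ^ 2 * (3 / 4 : ℝ) ^ (n - 2) * 2 ^ (Fintype.card (Sym2 Γ)) +
        (1 - (1 / 2 : ℝ) ^ 28) ^ (n / 7) * 2 ^ (Fintype.card (Sym2 Γ)) +
        (n : ℝ) * (2 * ((1 + (7 / 8 : ℝ) ^ ((n - 104) / 8)) ^ n - 1)) *
        2 ^ (Fintype.card (Sym2 Γ)) := by
        gcongr
    _ = _ := by ring

section transfer

variable {V : Type*} [Fintype V] [DecidableEq V]

/-- Configurations and graphs. -/
noncomputable def confEquiv : (Sym2 V → Bool) ≃ SimpleGraph V × (V → Bool) := by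
  classical
  refine Equiv.ofBijective (fun ω => (Gr ω, fun x => ω s(x, x))) ⟨?_, ?_⟩
  · intro ω ω' h
    simp only [Prod.mk.injEq] at h
    obtain ⟨h1, h2⟩ := h
    funext e
    induction e using Sym2.ind with
    | _ p q =>
      by_cases hpq : p = q
      · subst hpq
        exact congrFun h2 p
      · have h3 : (Gr ω).Adj p q ↔ (Gr ω').Adj p q := by rw [h1]
        simp only [Gr, ne_eq, hpq, not_false_eq_true, true_and] at h3
        exact Bool.eq_iff_iff.mpr h3
  · rintro ⟨G, d⟩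
    refine ⟨Sym2.lift ⟨fun p q => if p = q then d p else decide (G.Adj p q), ?_⟩, ?_⟩
    · intro p q
      by_cases hpq : p = q
      · subst hpq; rfl
      · simp [hpq, Ne.symm hpq, G.adj_comm]
    · simp only [Prod.mk.injEq]
      constructor
      · ext p q
        simp only [Gr, ne_eq, Sym2.lift_mk]
        by_cases hpq : p = q
        · subst hpq; simp
        · simp [hpq]
      · funext p
        simp

theorem confEquiv_fst (ω : Sym2 V → Bool) : (confEquiv ω).1 = Gr ω := rfl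

theorem card_conf (P : SimpleGraph V → Prop) :
    Nat.card {ω : Sym2 V → Bool // P (Gr ω)} =
      Nat.card {G : SimpleGraph V // P G} * 2 ^ (Fintype.card V) := by
  have e : {ω : Sym2 V → Bool // P (Gr ω)} ≃ {y : SimpleGraph V × (V → Bool) // P y.1} :=
    Equiv.subtypeEquiv confEquiv (fun ω => by rw [confEquiv_fst])
  rw [Nat.card_congr e, Nat.card_congr (Equiv.prodSubtypeFstEquivSubtypeProd (p := P)),
    Nat.card_prod]
  congr 1
  rw [Nat.card_eq_fintype_card, Fintype.card_fun, Fintype.card_bool]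

theorem card_conf_all :
    2 ^ (Fintype.card (Sym2 V)) = Nat.card (SimpleGraph V) * 2 ^ (Fintype.card V) := by
  rw [← Nat.card_congr (Equiv.refl _) (α := SimpleGraph V), ← Fintype.card_bool,
    ← Fintype.card_fun, ← Fintype.card_fun, ← Nat.card_eq_fintype_card,
    Nat.card_congr (confEquiv (V := V)), Nat.card_prod, Nat.card_eq_fintype_card (α := V → Bool)]

/-- The proportion of good graphs, from the number of bad configurations. -/
theorem ratio_ge (ε : ℝ) (P : SimpleGraph V → Prop)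
    (h : (Nat.card {ω : Sym2 V → Bool // ¬ P (Gr ω)} : ℝ) ≤ ε * 2 ^ (Fintype.card (Sym2 V))) :
    1 - ε ≤ (Nat.card {G : SimpleGraph V // P G} : ℝ) / Nat.card (SimpleGraph V) ∧
      (Nat.card {G : SimpleGraph V // P G} : ℝ) / Nat.card (SimpleGraph V) ≤ 1 := by
  classical
  have h1 := card_conf (fun G : SimpleGraph V => ¬ P G)
  have h2 := card_conf_all (V := V)
  have h3 : Nat.card {G : SimpleGraph V // P G} + Nat.card {G : SimpleGraph V // ¬ P G} =
      Nat.card (SimpleGraph V) := by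
    rw [← Nat.card_sum]
    exact Nat.card_congr (Equiv.sumCompl P)
  have hpos : (0 : ℝ) < 2 ^ (Fintype.card V) := by positivity
  rw [h1] at h
  have h2' : (2 : ℝ) ^ (Fintype.card (Sym2 V)) =
      (Nat.card (SimpleGraph V) : ℝ) * 2 ^ (Fintype.card V) := by exact_mod_cast h2
  have h3' : (Nat.card {G : SimpleGraph V // P G} : ℝ) + Nat.card {G : SimpleGraph V // ¬ P G} =
      Nat.card (SimpleGraph V) := by exact_mod_cast h3
  have hN : (0 : ℝ) < Nat.card (SimpleGraph V) := by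
    have : 0 < Nat.card (SimpleGraph V) := Nat.card_pos
    exact_mod_cast this
  rw [h2', ← mul_assoc] at h
  push_cast at h
  have h4 : (Nat.card {G : SimpleGraph V // ¬ P G} : ℝ) ≤ ε * Nat.card (SimpleGraph V) :=
    le_of_mul_le_mul_right h hpos
  have h5 : (0 : ℝ) ≤ Nat.card {G : SimpleGraph V // ¬ P G} := by positivity
  constructor
  · rw [le_div_iff₀ hN]
    linarith
  · rw [div_le_one hN]
    linarith

end transfer

/-- The error term. -/
noncomputable def err (n : ℕ) : ℝ :=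
  (n : ℝ) ^ 2 * (3 / 4 : ℝ) ^ (n - 2) + (1 - (1 / 2 : ℝ) ^ 28) ^ (n / 7) +
    (n : ℝ) * (2 * ((1 + (7 / 8 : ℝ) ^ ((n - 104) / 8)) ^ n - 1))

theorem err_tendsto : Tendsto err atTop (𝓝 0) := by
  have t1 : Tendsto (fun n : ℕ => (n : ℝ) ^ 2 * (3 / 4 : ℝ) ^ (n - 2)) atTop (𝓝 0) := by
    have h := (tendsto_pow_const_mul_const_pow_of_lt_one 2 (r := (3 / 4 : ℝ))
      (by norm_num) (by norm_num)).mul_const (((3 / 4 : ℝ) ^ 2)⁻¹)
    rw [zero_mul] at h
    refine h.congr' ?_
    filter_upwards [eventually_ge_atTop 2] with n hn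
    have : (3 / 4 : ℝ) ^ n = (3 / 4 : ℝ) ^ (n - 2) * (3 / 4 : ℝ) ^ 2 := by
      rw [← pow_add, Nat.sub_add_cancel hn]
    rw [this]
    field_simp
  have t2 : Tendsto (fun n : ℕ => (1 - (1 / 2 : ℝ) ^ 28) ^ (n / 7)) atTop (𝓝 0) :=
    (tendsto_pow_atTop_nhds_zero_of_lt_one (by norm_num) (by norm_num)).comp
      (Nat.tendsto_div_const_atTop (by norm_num))
  have t4 : Tendsto (fun n : ℕ => 4 * ((99 / 100 : ℝ) ^ 111)⁻¹ * ((n : ℝ) ^ 2 * (99 / 100 : ℝ) ^ n))
      atTop (𝓝 0) := by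
    have h := (tendsto_pow_const_mul_const_pow_of_lt_one 2 (r := (99 / 100 : ℝ))
      (by norm_num) (by norm_num)).const_mul (4 * ((99 / 100 : ℝ) ^ 111)⁻¹)
    rw [mul_zero] at h
    exact h
  have hρ : ∀ n : ℕ, 111 ≤ n → (7 / 8 : ℝ) ^ ((n - 104) / 8) ≤
      ((99 / 100 : ℝ) ^ 111)⁻¹ * (99 / 100 : ℝ) ^ n := by
    intro n hn
    calc (7 / 8 : ℝ) ^ ((n - 104) / 8) ≤ ((99 / 100 : ℝ) ^ 8) ^ ((n - 104) / 8) := by
          gcongr
          norm_num
      _ = (99 / 100 : ℝ) ^ (8 * ((n - 104) / 8)) := by rw [← pow_mul]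
      _ ≤ (99 / 100 : ℝ) ^ (n - 111) := by
          apply pow_le_pow_of_le_one (by norm_num) (by norm_num)
          omega
      _ = _ := by
          have : (99 / 100 : ℝ) ^ n = (99 / 100 : ℝ) ^ (n - 111) * (99 / 100 : ℝ) ^ 111 := by
            rw [← pow_add, Nat.sub_add_cancel hn]
          rw [this]
          field_simp
  have t3 : Tendsto (fun n : ℕ => (n : ℝ) *
      (2 * ((1 + (7 / 8 : ℝ) ^ ((n - 104) / 8)) ^ n - 1))) atTop (𝓝 0) := by
    refine tendsto_of_tendsto_of_tendsto_of_le_of_le' tendsto_const_nhds t4 ?_ ?_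
    · refine Eventually.of_forall fun n => ?_
      have h0 : (0 : ℝ) ≤ (7 / 8 : ℝ) ^ ((n - 104) / 8) := by positivity
      have h1 : (1 : ℝ) ≤ (1 + (7 / 8 : ℝ) ^ ((n - 104) / 8)) ^ n := one_le_pow₀ (by linarith)
      have h2 : (0 : ℝ) ≤ (1 + (7 / 8 : ℝ) ^ ((n - 104) / 8)) ^ n - 1 := by linarith
      positivity
    · have hlt : ∀ᶠ n : ℕ in atTop,
          4 * ((99 / 100 : ℝ) ^ 111)⁻¹ * ((n : ℝ) ^ 2 * (99 / 100 : ℝ) ^ n) < 1 :=
        (tendsto_order.mp t4).2 1 (by norm_num)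
      filter_upwards [hlt, eventually_ge_atTop 111] with n hn hn111
      set ρ := (7 / 8 : ℝ) ^ ((n - 104) / 8) with hρdef
      have hρ0 : 0 ≤ ρ := by positivity
      have hρn := hρ n hn111
      rw [← hρdef] at hρn
      have hnpos : (1 : ℝ) ≤ n := by
        have : 1 ≤ n := by omega
        exact_mod_cast this
      have hC : (0 : ℝ) < ((99 / 100 : ℝ) ^ 111)⁻¹ := by positivity
      have h1 : (n : ℝ) * ρ ≤ (n : ℝ) * (((99 / 100 : ℝ) ^ 111)⁻¹ * (99 / 100 : ℝ) ^ n) := by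
        gcongr
      have h2 : (n : ℝ) * (((99 / 100 : ℝ) ^ 111)⁻¹ * (99 / 100 : ℝ) ^ n) ≤
          (n : ℝ) ^ 2 * (((99 / 100 : ℝ) ^ 111)⁻¹ * (99 / 100 : ℝ) ^ n) := by
        gcongr
        nlinarith
      have h3 : (n : ℝ) ^ 2 * (((99 / 100 : ℝ) ^ 111)⁻¹ * (99 / 100 : ℝ) ^ n) < 1 / 4 := by
        nlinarith [hn]
      have hle1 : |(n : ℝ) * ρ| ≤ 1 := by
        rw [abs_of_nonneg (by positivity)]
        linarith
      have h4 := Real.abs_exp_sub_one_le hle1
      rw [abs_of_nonneg (by positivity : (0 : ℝ) ≤ (n : ℝ) * ρ)] at h4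
      have h5 : Real.exp ((n : ℝ) * ρ) - 1 ≤ 2 * ((n : ℝ) * ρ) := (le_abs_self _).trans h4
      have h6 : (1 + ρ) ^ n ≤ Real.exp ((n : ℝ) * ρ) := by
        rw [Real.exp_nat_mul]
        gcongr
        rw [add_comm]
        exact Real.add_one_le_exp ρ
      calc (n : ℝ) * (2 * ((1 + ρ) ^ n - 1)) ≤ (n : ℝ) * (2 * (2 * ((n : ℝ) * ρ))) := by
            gcongr
            linarith
        _ = 4 * ((n : ℝ) ^ 2 * ρ) := by ring
        _ ≤ 4 * ((n : ℝ) ^ 2 * (((99 / 100 : ℝ) ^ 111)⁻¹ * (99 / 100 : ℝ) ^ n)) := by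
            gcongr
        _ = _ := by ring
  have h := (t1.add t2).add t3
  rw [add_zero, add_zero] at h
  exact h

theorem main_bounds (m : ℕ) :
    1 - err (m + 1) ≤ (Nat.card {G : SimpleGraph (Fin (m + 1)) // Good G} : ℝ) /
      Nat.card (SimpleGraph (Fin (m + 1))) ∧
      (Nat.card {G : SimpleGraph (Fin (m + 1)) // Good G} : ℝ) /
      Nat.card (SimpleGraph (Fin (m + 1))) ≤ 1 := by
  have h := bad_le (Γ := ZMod (m + 1))
  rw [ZMod.card] at h
  exact ratio_ge (V := ZMod (m + 1)) (err (m + 1)) Good h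

theorem main : Tendsto (fun n : ℕ => (Nat.card {G : SimpleGraph (Fin n) // Good G} : ℝ) /
      Nat.card (SimpleGraph (Fin n))) atTop (𝓝 1) := by
  rw [← tendsto_add_atTop_iff_nat 1]
  have h1 : Tendsto (fun m : ℕ => 1 - err (m + 1)) atTop (𝓝 1) := by
    have := (err_tendsto.comp (tendsto_add_atTop_nat 1)).const_sub 1
    simpa using this
  exact tendsto_of_tendsto_of_tendsto_of_le_of_le h1 tendsto_const_nhds
    (fun m => (main_bounds m).1) (fun m => (main_bounds m).2)

end Pool.Agent.V11238.NPS
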